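import Pool.Agent.N273.KE.Sys

/-!
# Systems of equations over groups: commuting coefficients, nilpotent groups
-/

set_option autoImplicit false

namespace Pool.Agent.N273.KE

open Monoid

/-- **The embedding of an abelian group in a wreath product** (Kaloujnine and Krasner), which is
diagonal on a subgroup. -/
theorem kk {G B : Type} [Group G] [CommGroup B] (A : Subgroup G)
    (ι : A →* B) (hι : Function.Injective ι) :
    ∃ (X : Type) (_ : AddCommGroup X) (κ : B →* Wr G X), ∀ a : A, κ (ι a) = diag (a : G) := by
  classical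
  let Q := B ⧸ ι.range
  let s : Q → B := Quotient.out
  have hs : ∀ q : Q, (QuotientGroup.mk (s q) : Q) = q := fun q => Quotient.out_eq' q
  have hmem : ∀ (b : B) (q : Q), s q * b * (s (q * (QuotientGroup.mk b : Q)))⁻¹ ∈ ι.range := by
    intro b q
    rw [← QuotientGroup.eq_one_iff]
    have e : (QuotientGroup.mk (s q * b * (s (q * (QuotientGroup.mk b : Q)))⁻¹) : Q) =
        QuotientGroup.mk (s q) * QuotientGroup.mk b *
          (QuotientGroup.mk (s (q * (QuotientGroup.mk b : Q))))⁻¹ := rfl
    rw [e, hs, hs, mul_inv_cancel]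
  choose f hf using hmem
  refine ⟨Additive Q, inferInstance,
    { toFun := fun b => ⟨fun q => (f b q.toMul : G), Multiplicative.ofAdd (Additive.ofMul
        (QuotientGroup.mk b : Q))⟩
      map_one' := ?_
      map_mul' := ?_ }, ?_⟩
  · ext x
    · show ((f 1 x.toMul : A) : G) = 1
      have h1 : f 1 x.toMul = 1 := by
        apply hι
        rw [hf, map_one]
        have e : (QuotientGroup.mk (1 : B) : Q) = 1 := rfl
        rw [e]
        simp
      rw [h1]
      rfl
    · rfl
  · intro b b'
    ext x
    · show ((f (b * b') x.toMul : A) : G) = (f b x.toMul : G) *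
        (f b' (x.toMul * (QuotientGroup.mk b : Q)) : G)
      have h1 : f (b * b') x.toMul = f b x.toMul * f b' (x.toMul * (QuotientGroup.mk b : Q)) := by
        apply hι
        rw [map_mul, hf, hf, hf]
        have e : (QuotientGroup.mk (b * b') : Q) = QuotientGroup.mk b * QuotientGroup.mk b' := rfl
        rw [e, ← mul_assoc (Additive.toMul x)]
        group
      rw [h1]
      rfl
    · rfl
  · intro a
    ext x
    · show ((f (ι a) x.toMul : A) : G) = (a : G)
      have h1 : f (ι a) x.toMul = a := by
        apply hι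
        rw [hf]
        have e : (QuotientGroup.mk (ι a) : Q) = 1 :=
          (QuotientGroup.eq_one_iff _).2 ⟨a, rfl⟩
        rw [e, mul_one, mul_right_comm, mul_inv_cancel, one_mul]
      rw [h1]
    · show Multiplicative.ofAdd (Additive.ofMul (QuotientGroup.mk (ι a) : Q)) = 1
      have e : (QuotientGroup.mk (ι a) : Q) = 1 :=
        (QuotientGroup.eq_one_iff _).2 ⟨a, rfl⟩
      rw [e]
      rfl

section

variable {G : Type} [Group G] {n : ℕ}

/-- the words with coefficients in `A` -/
def Words (A : Subgroup G) (n : ℕ) : Subgroup (Coprod G (FreeGroup (Fin n))) :=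
  Subgroup.closure ((Coprod.inl : G →* Coprod G (FreeGroup (Fin n))) '' (A : Set G) ∪
    Set.range (Coprod.inr : FreeGroup (Fin n) →* Coprod G (FreeGroup (Fin n))))

theorem words_lift (A : Subgroup G) {x : Coprod G (FreeGroup (Fin n))} (hx : x ∈ Words A n) :
    ∃ y : Coprod A (FreeGroup (Fin n)), Coprod.map A.subtype (MonoidHom.id _) y = x := by
  have h1 : Words A n ≤ (Coprod.map A.subtype (MonoidHom.id (FreeGroup (Fin n)))).range := by
    refine (Subgroup.closure_le _).2 ?_
    rintro _ (⟨a, ha, rfl⟩ | ⟨u, rfl⟩)
    · exact ⟨Coprod.inl ⟨a, ha⟩, by rw [Coprod.map_apply_inl]; rfl⟩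
    · exact ⟨Coprod.inr u, by rw [Coprod.map_apply_inr]; rfl⟩
  exact h1 hx

theorem expo_map (A : Subgroup G) (i : Fin n) (y : Coprod A (FreeGroup (Fin n))) :
    expo G i (Coprod.map A.subtype (MonoidHom.id _) y) = expo A i y := by
  have h : (expo G i).comp (Coprod.map A.subtype (MonoidHom.id (FreeGroup (Fin n)))) =
      expo A i := by
    refine Coprod.hom_ext ?_ ?_
    · ext a
      simp only [MonoidHom.comp_apply, Coprod.map_apply_inl, expo_inl]
    · ext k
      simp only [MonoidHom.comp_apply, Coprod.map_apply_inr, MonoidHom.id_apply]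
      exact (expo_T (G := G) i k).trans (expo_T (G := A) i k).symm
  exact DFunLike.congr_fun h y

/-- a nonsingular system with commuting coefficients has a solution in a wreath product, over the
diagonal -/
theorem comm_solve (A : Subgroup G) (hA : ∀ a ∈ A, ∀ b ∈ A, a * b = b * a)
    (w : Fin n → Coprod G (FreeGroup (Fin n))) (hw : ∀ j, w j ∈ Words A n)
    (hdet : (Matrix.of fun i j : Fin n => Multiplicative.toAdd (expo G i (w j))).det ≠ 0) :
    ∃ (X : Type) (_ : AddCommGroup X) (t : Fin n → Wr G X), ∀ j, val diag t (w j) = 1 := by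
  classical
  let iA : CommGroup A := { (inferInstance : Group A) with
    mul_comm := fun a b => Subtype.ext (hA a a.2 b b.2) }
  choose w' hw' using fun j => words_lift A (hw j)
  -- the evaluation in the abelian group
  let e : Fin n → Multiplicative (Fin n → ℤ) := fun k => Multiplicative.ofAdd (Pi.single k 1)
  let θ : Coprod A (FreeGroup (Fin n)) →* A × Multiplicative (Fin n → ℤ) :=
    Coprod.lift (MonoidHom.inl A (Multiplicative (Fin n → ℤ))) (FreeGroup.lift fun k => (1, e k))
  have hθ : ∀ (y : Coprod A (FreeGroup (Fin n))) (i : Fin n),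
      Multiplicative.toAdd (θ y).2 i = Multiplicative.toAdd (expo A i y) := by
    intro y i
    have h : (AddMonoidHom.toMultiplicative (Pi.evalAddMonoidHom (fun _ : Fin n => ℤ) i)).comp
        ((MonoidHom.snd A (Multiplicative (Fin n → ℤ))).comp θ) = expo A i := by
      refine Coprod.hom_ext ?_ ?_
      · ext a
        simp only [MonoidHom.comp_apply, θ, Coprod.lift_apply_inl, expo_inl]
        rfl
      · ext k
        simp only [MonoidHom.comp_apply, θ, Coprod.lift_apply_inr, FreeGroup.lift_apply_of]
        refine Eq.trans ?_ (congrArg _ (expo_T (G := A) i k)).symm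
        show (Pi.single k (1 : ℤ) : Fin n → ℤ) i = _
        by_cases hki : k = i
        · subst hki
          simp
        · rw [Pi.single_eq_of_ne (Ne.symm hki), if_neg hki]
          rfl
    have h1 := DFunLike.congr_fun h y
    exact congrArg Multiplicative.toAdd h1
  let ψ : Multiplicative (Fin n → ℤ) →* A × Multiplicative (Fin n → ℤ) :=
    { toFun := fun v => ∏ j, θ (w' j) ^ (Multiplicative.toAdd v j)
      map_one' := by simp
      map_mul' := fun v v' => by
        simp only [toAdd_mul, Pi.add_apply, zpow_add, Finset.prod_mul_distrib] }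
  have hψ1 : ∀ v, Multiplicative.toAdd (ψ v).2 =
      ∑ j, Multiplicative.toAdd v j • Multiplicative.toAdd (θ (w' j)).2 := by
    intro v
    have h1 : (ψ v).2 = ∏ j, (θ (w' j)).2 ^ (Multiplicative.toAdd v j) := by
      show (MonoidHom.snd A (Multiplicative (Fin n → ℤ))) (∏ j, θ (w' j) ^ _) = _
      rw [map_prod]
      rfl
    rw [h1, toAdd_prod]
    rfl
  have hinj : ∀ v, (ψ v).2 = 1 → v = 1 := by
    intro v hv
    have h1 : (Matrix.of fun i j : Fin n => Multiplicative.toAdd (expo G i (w j))).mulVec
        (Multiplicative.toAdd v) = 0 := by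
      funext i
      have h2 := congrFun (hψ1 v) i
      rw [hv] at h2
      rw [Finset.sum_apply] at h2
      have h4 : ∑ j, Multiplicative.toAdd (expo G i (w j)) * Multiplicative.toAdd v j = 0 := by
        refine Eq.trans (Finset.sum_congr rfl fun j _ => ?_) h2.symm
        show Multiplicative.toAdd (expo G i (w j)) * Multiplicative.toAdd v j =
          Multiplicative.toAdd v j * Multiplicative.toAdd (θ (w' j)).2 i
        rw [hθ, ← expo_map, hw', mul_comm]
      exact h4
    have h3 := Matrix.eq_zero_of_mulVec_eq_zero hdet h1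
    exact h3
  let B := (A × Multiplicative (Fin n → ℤ)) ⧸ ψ.range
  let ι : A →* B := (QuotientGroup.mk' ψ.range).comp (MonoidHom.inl A _)
  have hι : Function.Injective ι := by
    rw [injective_iff_map_eq_one]
    intro a ha
    have h1 : ((a, 1) : A × Multiplicative (Fin n → ℤ)) ∈ ψ.range :=
      (QuotientGroup.eq_one_iff _).1 ha
    obtain ⟨v, hv⟩ := h1
    have h2 : v = 1 := hinj v (by rw [hv])
    rw [h2, map_one] at hv
    exact (congrArg Prod.fst hv).symm
  obtain ⟨X, iX, κ, hκ⟩ := kk A ι hι
  refine ⟨X, iX, fun k => κ (QuotientGroup.mk' ψ.range (1, e k)), fun j => ?_⟩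
  have h : (val (diag (G := G) (X := X)) fun k => κ (QuotientGroup.mk' ψ.range (1, e k))).comp
      (Coprod.map A.subtype (MonoidHom.id (FreeGroup (Fin n)))) =
      (κ.comp (QuotientGroup.mk' ψ.range)).comp θ := by
    refine Coprod.hom_ext ?_ ?_
    · refine MonoidHom.ext fun a => ?_
      simp only [MonoidHom.comp_apply, Coprod.map_apply_inl, val_inl]
      rw [show θ (Coprod.inl a) = MonoidHom.inl A _ a from Coprod.lift_apply_inl _ _ _]
      exact (hκ a).symm
    · refine FreeGroup.ext_hom _ _ fun k => ?_
      simp only [MonoidHom.comp_apply, Coprod.map_apply_inr, MonoidHom.id_apply]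
      refine (val_T _ _ k).trans ?_
      rw [show θ (Coprod.inr (FreeGroup.of k)) = (1, e k) from
        (Coprod.lift_apply_inr _ _ _).trans (FreeGroup.lift_apply_of)]
  have h1 := DFunLike.congr_fun h (w' j)
  rw [MonoidHom.comp_apply, hw'] at h1
  rw [h1, MonoidHom.comp_apply, MonoidHom.comp_apply]
  have h2 : QuotientGroup.mk' ψ.range (θ (w' j)) = 1 := by
    rw [QuotientGroup.mk'_apply, QuotientGroup.eq_one_iff]
    refine ⟨Multiplicative.ofAdd (Pi.single j 1), ?_⟩
    show ∏ j', θ (w' j') ^ ((Pi.single j (1 : ℤ) : Fin n → ℤ) j') = _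
    rw [Finset.prod_eq_single j]
    · rw [Pi.single_eq_same, zpow_one]
    · intro j' _ hj'
      rw [Pi.single_eq_of_ne hj', zpow_zero]
    · intro hj
      exact absurd (Finset.mem_univ j) hj
  rw [h2, map_one]

end

end Pool.Agent.N273.KE
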