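import Mathlib

/-!
# Kervaire extensions and products of conjugacy classes: dependence preserving homomorphisms

`DP φ` says that a relation between conjugates of elements of `G` which holds in `D` already holds
in `G`. The diagonal embedding of `G` in a wreath product `(X → G) ⋊ X` has this property, for
trivial reasons. Levin's solution of positive equations lies in such a wreath product.
-/

set_option autoImplicit false

namespace Pool.Agent.N273.KE

/-- Every relation between conjugates of elements of `G` which holds in `D` holds in `G`. -/
def DP {G D : Type} [Group G] [Group D] (φ : G →* D) : Prop :=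
  ∀ (r : ℕ) (g : Fin r → G),
    (∃ h : Fin r → D, (List.ofFn fun i => h i * φ (g i) * (h i)⁻¹).prod = 1) →
    ∃ x : Fin r → G, (List.ofFn fun i => x i * g i * (x i)⁻¹).prod = 1

section

variable {G D E : Type} [Group G] [Group D] [Group E]

theorem DP.comp {φ : G →* D} {ψ : D →* E} (h1 : DP φ) (h2 : DP ψ) : DP (ψ.comp φ) :=
  fun r g h => h1 r g (h2 r (fun i => φ (g i)) h)

theorem DP.of_comp {φ : G →* D} {ψ : D →* E} (h1 : DP (ψ.comp φ)) : DP φ := by
  rintro r g ⟨h, hh⟩
  refine h1 r g ⟨fun i => ψ (h i), ?_⟩
  have h2 := congrArg ψ hh
  rw [map_list_prod, List.map_ofFn, map_one] at h2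
  rw [← h2]
  congr 2
  funext i
  simp

theorem DP.id : DP (MonoidHom.id G) := fun _ _ h => h

theorem DP.retract {φ : G →* D} (ρ : D →* G) (h : ∀ g, ρ (φ g) = g) : DP φ := by
  refine DP.of_comp (ψ := ρ) ?_
  have h1 : ρ.comp φ = MonoidHom.id G := MonoidHom.ext h
  rw [h1]
  exact DP.id

end

section

variable (G : Type) [Group G] (X : Type) [AddCommGroup X]

/-- the translations of the functions on `X` -/
def shift : Multiplicative X →* MulAut (X → G) where
  toFun s :=
    { toFun := fun f x => f (x + s.toAdd)
      invFun := fun f x => f (x - s.toAdd)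
      left_inv := fun f => by
        funext x
        simp
      right_inv := fun f => by
        funext x
        simp
      map_mul' := fun _ _ => rfl }
  map_one' := by
    ext f x
    simp
  map_mul' := by
    intro s s'
    ext f x
    simp only [toAdd_mul, MulEquiv.coe_mk, Equiv.coe_fn_mk, MulAut.mul_apply]
    congr 1
    exact (add_assoc _ _ _).symm

/-- the wreath product -/
abbrev Wr := (X → G) ⋊[shift G X] Multiplicative X

variable {G X}

theorem shift_apply (s : Multiplicative X) (f : X → G) (x : X) :
    shift G X s f x = f (x + s.toAdd) := rfl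

/-- the diagonal embedding -/
def diag : G →* Wr G X := SemidirectProduct.inl.comp (Pi.constMonoidHom X G)

theorem diag_left (g : G) (x : X) : (diag (X := X) g).left x = g := rfl

theorem diag_right (g : G) : (diag (X := X) g).right = 1 := rfl

theorem conj_diag (d : Wr G X) (g : G) :
    d * diag g * d⁻¹ = SemidirectProduct.inl (fun x => d.left x * g * (d.left x)⁻¹) := by
  ext x
  · simp only [SemidirectProduct.mul_left, SemidirectProduct.inv_left, Pi.mul_apply, shift_apply,
      diag_left, SemidirectProduct.mul_right, diag_right, mul_one, SemidirectProduct.left_inl,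
      Pi.inv_apply, toAdd_inv]
    rw [add_neg_cancel_right]
  · simp [diag_right]

/-- **the diagonal embedding preserves dependence** -/
theorem dp_diag : DP (diag (G := G) (X := X)) := by
  rintro r g ⟨h, hh⟩
  refine ⟨fun i => (h i).left 0, ?_⟩
  have h1 : (List.ofFn fun i => h i * diag (X := X) (g i) * (h i)⁻¹) =
      (List.ofFn fun i => (fun x : X => (h i).left x * g i * ((h i).left x)⁻¹)).map
        (SemidirectProduct.inl : (X → G) →* Wr G X) := by
    rw [List.map_ofFn]
    congr 1
    funext i
    exact conj_diag (h i) (g i)
  rw [h1, ← map_list_prod] at hh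
  have h2 : (List.ofFn fun i => (fun x : X => (h i).left x * g i * ((h i).left x)⁻¹)).prod = 1 :=
    SemidirectProduct.inl_injective (by rw [hh, map_one])
  have h3 := congrArg (Pi.evalMonoidHom (fun _ : X => G) 0) h2
  rw [map_list_prod, List.map_ofFn, map_one] at h3
  exact h3

/-- the product of the word at a point -/
def ev (f : X → G) (s : X) : X → List G → G
  | _, [] => 1
  | x, a :: l => f x * a * ev f s (x + s) l

theorem ev_append (f : X → G) (s : X) (l₁ l₂ : List G) (x : X) :
    ev f s x (l₁ ++ l₂) = ev f s x l₁ * ev f s (x + l₁.length • s) l₂ := by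
  induction l₁ generalizing x with
  | nil => simp [ev]
  | cons a l ih =>
    rw [List.cons_append, ev, ev, ih]
    have e : x + s + l.length • s = x + (a :: l).length • s := by
      rw [List.length_cons, succ_nsmul]
      abel
    rw [e]
    simp only [mul_assoc]

theorem word_left (t : Wr G X) (l : List G) (x : X) :
    (l.map fun a => t * diag a).prod.left x = ev t.left t.right.toAdd x l := by
  induction l generalizing x with
  | nil => rfl
  | cons a l ih =>
    rw [List.map_cons, List.prod_cons, ev]
    rw [SemidirectProduct.mul_left, Pi.mul_apply, shift_apply, ih]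
    simp only [SemidirectProduct.mul_left, Pi.mul_apply, shift_apply, diag_left,
      SemidirectProduct.mul_right, diag_right, mul_one]

theorem word_right (t : Wr G X) (l : List G) :
    (l.map fun a => t * diag a).prod.right = t.right ^ l.length := by
  induction l with
  | nil => simp
  | cons a l ih =>
    rw [List.map_cons, List.prod_cons, SemidirectProduct.mul_right, ih,
      SemidirectProduct.mul_right, diag_right, mul_one, List.length_cons, pow_succ']

/-- a palindromic product is trivial -/
theorem palin (l : List G) : (List.zipWith (fun b a => b⁻¹ * a) l.reverse l).prod = 1 := by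
  induction l using List.bidirectionalRec with
  | nil => rfl
  | singleton a => simp
  | cons_append a l b ih =>
    have e : (a :: (l ++ [b])).reverse = b :: (l.reverse ++ [a]) := by simp
    rw [e, List.zipWith_cons_cons, List.prod_cons,
      List.zipWith_append (by simp), List.prod_append, ih]
    simp

theorem ev_zip (f : X → G) (s : X) (l l' : List G) (hl : l'.length = l.length) (x : X)
    (h : ∀ (i : ℕ) (hi : i < l'.length), f (x + i • s) = (l'[i])⁻¹) :
    ev f s x l = (List.zipWith (fun b a => b⁻¹ * a) l' l).prod := by
  induction l generalizing l' x with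
  | nil =>
    have : l' = [] := List.length_eq_zero_iff.1 (by simpa using hl)
    subst this
    rfl
  | cons a l ih =>
    obtain ⟨b, l'', rfl⟩ : ∃ b l'', l' = b :: l'' := by
      cases l' with
      | nil => simp at hl
      | cons b l'' => exact ⟨b, l'', rfl⟩
    rw [ev, List.zipWith_cons_cons, List.prod_cons,
      ih l'' (by simpa using hl) (x + s) (fun i hi => by
        have h1 := h (i + 1) (by simpa using hi)
        rw [succ_nsmul] at h1
        have e : x + s + i • s = x + (i • s + s) := by abel
        rw [e, h1]
        rfl)]
    have h1 := h 0 (by simp)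
    rw [zero_nsmul, add_zero] at h1
    rw [h1]
    rfl

theorem ev_one (f : X → G) (s : X) (l : List G) (x : X)
    (h : ∀ (i : ℕ) (hi : i < l.reverse.length), f (x + i • s) = (l.reverse[i])⁻¹) :
    ev f s x l = 1 := by
  rw [ev_zip f s l l.reverse (by simp) x h, palin]

/-- **Levin's theorem.** Positive equations are solvable in the wreath product with a cyclic
group, over the diagonal. -/
theorem levin (m : ℕ) [NeZero m] (l : List G) (hl : l.length = m) :
    ∃ t : Wr G (ZMod m), (l.map fun a => t * diag a).prod = 1 := by
  refine ⟨⟨fun y => (l.reverse.getD y.val 1)⁻¹, Multiplicative.ofAdd 1⟩, ?_⟩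
  ext x
  · rw [word_left]
    obtain ⟨M, hM, hx⟩ : ∃ M : ℕ, M ≤ m ∧ x + (M : ZMod m) = 0 := by
      refine ⟨(-x).val, (ZMod.val_lt _).le, ?_⟩
      rw [ZMod.natCast_zmod_val, add_neg_cancel]
    show ev _ (1 : ZMod m) x l = 1
    rw [← List.take_append_drop M l, ev_append, List.length_take, hl, min_eq_left hM,
      nsmul_eq_mul, mul_one, hx, List.take_append_drop, ev_one, ev_one, one_mul]
    · intro i hi
      rw [List.length_reverse, List.length_drop, hl] at hi
      have h1 : ((i : ℕ) : ZMod m).val = i := ZMod.val_cast_of_lt (by omega)
      rw [nsmul_eq_mul, mul_one, zero_add]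
      show (l.reverse.getD (((i : ℕ) : ZMod m)).val 1)⁻¹ = _
      rw [h1, List.getD_eq_getElem _ _ (by rw [List.length_reverse]; omega)]
      congr 1
      simp only [List.getElem_reverse, List.getElem_drop, List.length_drop]
      congr 1
      omega
    · intro i hi
      rw [List.length_reverse, List.length_take, hl, min_eq_left hM] at hi
      have h0 : x = ((m - M : ℕ) : ZMod m) := by
        rw [Nat.cast_sub hM, ZMod.natCast_self, zero_sub]
        exact eq_neg_of_add_eq_zero_left hx
      have h1 : (x + i • (1 : ZMod m)).val = m - M + i := by
        rw [h0, nsmul_eq_mul, mul_one, ← Nat.cast_add]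
        exact ZMod.val_cast_of_lt (by omega)
      show (l.reverse.getD (x + i • (1 : ZMod m)).val 1)⁻¹ = _
      rw [h1, List.getD_eq_getElem _ _ (by rw [List.length_reverse]; omega)]
      congr 1
      simp only [List.getElem_reverse, List.getElem_take, List.length_take]
      congr 1
      omega
  · rw [word_right]
    show Multiplicative.ofAdd (1 : ZMod m) ^ l.length = 1
    rw [hl, ← ofAdd_nsmul, nsmul_eq_mul, mul_one, ZMod.natCast_self, ofAdd_zero]

end

end Pool.Agent.N273.KE
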