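import Pool.Agent.N273.KE.Nilp

/-!
# Kervaire extensions and products of conjugacy classes: four families of systems
-/

set_option autoImplicit false

namespace Pool.Agent.N273.KE

open Monoid

/-- the map from `G` to the Kervaire extension -/
def ext {G : Type} [Group G] {n : ℕ} (w : Fin n → Coprod G (FreeGroup (Fin n))) :
    G →* Coprod G (FreeGroup (Fin n)) ⧸ Subgroup.normalClosure (Set.range w) :=
  (QuotientGroup.mk' (Subgroup.normalClosure (Set.range w))).comp
    (Coprod.inl : G →* Coprod G (FreeGroup (Fin n)))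

theorem toAdd_ne {z : Multiplicative ℤ} (h : Multiplicative.toAdd z ≠ 0) : z ≠ 1 := by
  rintro rfl
  exact h rfl

/-- positive triangular systems -/
theorem dp_pos {G : Type} [Group G] {n : ℕ} (w : Fin n → Coprod G (FreeGroup (Fin n)))
    (hdet : (mat w).det ≠ 0) (hw : PosTri w) : DP (ext w) := by
  have htri : (mat w).BlockTriangular id := by
    intro i j hij
    have hij' : j < i := hij
    show Multiplicative.toAdd (expo G i (w j)) = 0
    rcases hw j with h | h
    · rw [expo_pos hij' h]
      rfl
    · have h1 := expo_pos hij' h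
      rw [map_inv, inv_eq_one] at h1
      rw [h1]
      rfl
  rw [Matrix.det_of_isUpperTriangular htri] at hdet
  obtain ⟨D, iD, φ, t, hφ, ht⟩ := pos_solve w hw fun j =>
    toAdd_ne (Finset.prod_ne_zero_iff.1 hdet j (Finset.mem_univ j))
  exact concl w φ hφ t ht

/-- systems of weight two -/
theorem dp_two {G : Type} [Group G] {n : ℕ} (w : Fin n → Coprod G (FreeGroup (Fin n)))
    (hdet : (mat w).det ≠ 0) (p q : Fin n → Fin n) (ε δ : Fin n → ℤˣ) (a b : Fin n → G)
    (hw : ∀ j, w j = T G (p j) ^ (ε j : ℤ) * Coprod.inl (a j) * T G (q j) ^ (δ j : ℤ) *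
      Coprod.inl (b j)) : DP (ext w) := by
  classical
  obtain ⟨t, ht⟩ := two_solve p q ε δ a b (by
    intro x hx
    refine Matrix.eq_zero_of_vecMul_eq_zero hdet ?_
    funext j
    have h1 : ∀ i, mat w i j = (ε j : ℤ) * (if p j = i then 1 else 0) +
        (δ j : ℤ) * (if q j = i then 1 else 0) := by
      intro i
      have h0 : expo G i (w j) = expo G i (T G (p j)) ^ (ε j : ℤ) *
          expo G i (T G (q j)) ^ (δ j : ℤ) := by
        rw [hw j]
        simp only [map_mul, map_zpow, expo_inl, mul_one]
      show Multiplicative.toAdd (expo G i (w j)) = _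
      rw [h0, expo_T, expo_T, toAdd_mul, toAdd_zpow, toAdd_zpow]
      split_ifs <;> simp
    have h2 : Matrix.vecMul x (mat w) j = ∑ i, x i * mat w i j := rfl
    rw [h2, Finset.sum_congr rfl fun i _ => by rw [h1 i]]
    simp only [mul_add, Finset.sum_add_distrib, mul_ite, mul_one, mul_zero]
    rw [Finset.sum_ite_eq Finset.univ (p j), Finset.sum_ite_eq Finset.univ (q j)]
    simp only [Finset.mem_univ, if_true]
    have h3 := hx j
    rw [Pi.zero_apply, ← h3]
    ring)
  refine concl w diag dp_diag t fun j => ?_
  rw [hw j, map_mul, map_mul, map_mul, map_zpow, map_zpow, val_T, val_T, val_inl, val_inl]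
  exact ht j

/-- systems with commuting coefficients -/
theorem dp_comm {G : Type} [Group G] {n : ℕ} (w : Fin n → Coprod G (FreeGroup (Fin n)))
    (hdet : (mat w).det ≠ 0) (A : Subgroup G) (hA : ∀ a ∈ A, ∀ b ∈ A, a * b = b * a)
    (hw : ∀ j, w j ∈ Words A n) : DP (ext w) := by
  obtain ⟨X, iX, t, ht⟩ := comm_solve A hA w hw hdet
  exact concl w diag dp_diag t ht

/-- systems with coefficients in a nilpotent group -/
theorem dp_nilp {G : Type} [Group G] {n : ℕ} (w : Fin n → Coprod G (FreeGroup (Fin n)))
    (A : Subgroup G) [Group.IsNilpotent A]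
    (hbij : Function.Bijective fun x : A => x ^ (mat w).det)
    (hw : ∀ j, w j ∈ Words A n) : DP (ext w) := by
  choose w' hw' using fun j => words_lift A (hw j)
  have hmat : mat w = mat w' := by
    ext i j
    show Multiplicative.toAdd (expo G i (w j)) = Multiplicative.toAdd (expo A i (w' j))
    rw [← hw' j, expo_map]
  rw [hmat] at hbij
  obtain ⟨t, ht⟩ := nilp_solve A n w' hbij
  refine concl w (MonoidHom.id G) DP.id (fun k => (t k : G)) fun j => ?_
  have h : (val (MonoidHom.id G) fun k => (t k : G)).comp
      (Coprod.map A.subtype (MonoidHom.id (FreeGroup (Fin n)))) =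
      A.subtype.comp (val (MonoidHom.id A) t) := by
    refine Coprod.hom_ext ?_ ?_
    · refine MonoidHom.ext fun a => ?_
      simp only [MonoidHom.comp_apply, Coprod.map_apply_inl, val_inl, MonoidHom.id_apply]
    · refine FreeGroup.ext_hom _ _ fun k => ?_
      simp only [MonoidHom.comp_apply, Coprod.map_apply_inr, MonoidHom.id_apply]
      refine (val_T _ _ k).trans ?_
      exact congrArg A.subtype (val_T (MonoidHom.id A) t k).symm
  have h1 := DFunLike.congr_fun h (w' j)
  rw [MonoidHom.comp_apply, hw'] at h1
  rw [h1, MonoidHom.comp_apply, ht j, map_one]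

end Pool.Agent.N273.KE
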