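import Pool.Agent.N273.KE.Core

/-!
# Dependence in free groups: positive endomorphisms
-/

set_option autoImplicit false

namespace Pool.Agent.N273.KE

section

variable {P : Type} [Group P]

theorem absorb' (L : Subgroup P) (t : P) (cs : List P) : (∀ c ∈ cs, c ∈ L) → ∀ c ∈ L, ∀ c' ∈ L,
    ∃ c'' ∈ L, ∃ cs' : List P, (∀ c ∈ cs', c ∈ L) ∧
      c * (cs.map fun a => t * a).prod * c' = c'' * (cs'.map fun a => t * a).prod := by
  induction cs with
  | nil =>
    intro _ c hc c' hc'
    exact ⟨c * c', L.mul_mem hc hc', [], by simp, by simp⟩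
  | cons e cs ih =>
    intro hcs c hc c' hc'
    obtain ⟨e', he', cs', hcs', h⟩ := ih (fun x hx => hcs x (List.mem_cons_of_mem _ hx)) e
      (hcs e List.mem_cons_self) c' hc'
    refine ⟨c, hc, e' :: cs', ?_, ?_⟩
    · intro x hx
      rcases List.mem_cons.1 hx with rfl | hx
      · exact he'
      · exact hcs' x hx
    · rw [List.map_cons, List.prod_cons, List.map_cons, List.prod_cons, mul_assoc t e',
        ← h]
      simp only [mul_assoc]

theorem pos_form' (L : Subgroup P) (t : P) {x : P}
    (hx : x ∈ Submonoid.closure ({t} ∪ (L : Set P))) :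
    ∃ c ∈ L, ∃ cs : List P, (∀ c ∈ cs, c ∈ L) ∧ x = c * (cs.map fun a => t * a).prod := by
  induction hx using Submonoid.closure_induction with
  | mem y hy =>
    rcases hy with hy | hy
    · refine ⟨1, one_mem _, [1], by simp, ?_⟩
      rw [Set.mem_singleton_iff.1 hy]
      simp
    · exact ⟨y, hy, [], by simp, by simp⟩
  | one => exact ⟨1, one_mem _, [], by simp, by simp⟩
  | mul y z _ _ hy hz =>
    obtain ⟨c, hc, cs, hcs, rfl⟩ := hy
    obtain ⟨c', hc', cs', hcs', rfl⟩ := hz
    obtain ⟨c'', hc'', ds, hds, h⟩ := absorb' L t cs hcs c hc c' hc'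
    refine ⟨c'', hc'', ds ++ cs', ?_, ?_⟩
    · intro x hx
      rcases List.mem_append.1 hx with hx | hx
      · exact hds x hx
      · exact hcs' x hx
    · rw [List.map_append, List.prod_append, ← mul_assoc c'', ← h]
      simp only [mul_assoc]

end

section

variable {ι : Type} [DecidableEq ι]

/-- the subgroup generated by the letters different from `j` -/
def others (j : ι) : Subgroup (FreeGroup ι) :=
  Subgroup.closure {x | ∃ i, i ≠ j ∧ x = FreeGroup.of i}

/-- **an elementary positive endomorphism preserves and reflects dependence** -/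
theorem dp_elem (φ : FreeGroup ι →* FreeGroup ι) (j : ι)
    (h1 : ∀ i, i ≠ j → φ (FreeGroup.of i) = FreeGroup.of i)
    (h2 : φ (FreeGroup.of j) ∈
      Submonoid.closure ({FreeGroup.of j} ∪ (others j : Set (FreeGroup ι))))
    (h3 : φ (FreeGroup.of j) ∉ others j) : DP φ := by
  obtain ⟨c, hc, cs, hcs, hx⟩ := pos_form' (others j) (FreeGroup.of j) h2
  have hne : cs ≠ [] := by
    rintro rfl
    apply h3
    rw [hx, List.map_nil, List.prod_nil, mul_one]
    exact hc
  obtain ⟨cs₀, e, rfl⟩ : ∃ cs₀ e, cs = cs₀ ++ [e] := by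
    rcases List.eq_nil_or_concat cs with h | ⟨l, a, h⟩
    · exact absurd h hne
    · exact ⟨l, a, by simpa using h⟩
  obtain ⟨l, hl⟩ : ∃ l : List (FreeGroup ι), l = cs₀ ++ [e * (FreeGroup.of j)⁻¹ * c] :=
    ⟨_, rfl⟩
  have hlen : l.length = cs₀.length + 1 := by rw [hl]; simp
  obtain ⟨s, hs⟩ := levin (cs₀.length + 1) l hlen
  let Φ : FreeGroup ι →* Wr (FreeGroup ι) (ZMod (cs₀.length + 1)) :=
    FreeGroup.lift fun i => if i = j then s else diag (FreeGroup.of i)
  have hΦj : Φ (FreeGroup.of j) = s := by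
    show FreeGroup.lift _ _ = _
    rw [FreeGroup.lift_apply_of, if_pos rfl]
  have hΦ : ∀ y ∈ others j, Φ y = diag y := by
    intro y hy
    unfold others at hy
    induction hy using Subgroup.closure_induction with
    | mem z hz =>
      obtain ⟨i, hi, rfl⟩ := hz
      show FreeGroup.lift _ _ = _
      rw [FreeGroup.lift_apply_of, if_neg hi]
    | one => rw [map_one, map_one]
    | mul a b _ _ ha hb => rw [map_mul, map_mul, ha, hb]
    | inv a _ ha => rw [map_inv, map_inv, ha]
  have hprod : ∀ ds : List (FreeGroup ι), (∀ d ∈ ds, d ∈ others j) →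
      Φ (ds.map fun a => FreeGroup.of j * a).prod = (ds.map fun a => s * diag a).prod := by
    intro ds
    induction ds with
    | nil =>
      intro _
      simp
    | cons d ds ih =>
      intro hds
      rw [List.map_cons, List.prod_cons, map_mul, map_mul, hΦj,
        hΦ d (hds d List.mem_cons_self), ih fun x hx => hds x (List.mem_cons_of_mem _ hx),
        List.map_cons, List.prod_cons]
  have he : e ∈ others j := hcs e (by simp)
  refine DP.of_comp (ψ := Φ) ?_
  have hcomp : Φ.comp φ = diag := by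
    refine FreeGroup.ext_hom _ _ fun i => ?_
    rw [MonoidHom.comp_apply]
    by_cases hi : i = j
    · subst hi
      rw [hx, map_mul, List.map_append, List.prod_append, map_mul,
        hprod cs₀ fun x hx => hcs x (List.mem_append_left _ hx), hΦ c hc]
      simp only [List.map_cons, List.map_nil, List.prod_cons, List.prod_nil, mul_one, map_mul]
      rw [hΦj, hΦ e he]
      rw [hl, List.map_append, List.prod_append] at hs
      simp only [List.map_cons, List.map_nil, List.prod_cons, List.prod_nil, mul_one, map_mul,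
        map_inv] at hs
      have h4 : (cs₀.map fun a => s * diag a).prod * (s * diag e) =
          (diag c)⁻¹ * diag (FreeGroup.of i) := by
        rw [← mul_inv_eq_one, ← hs]
        simp only [mul_inv_rev, inv_inv, mul_assoc]
      rw [h4, mul_inv_cancel_left]
    · rw [h1 i hi, hΦ]
      exact Subgroup.subset_closure ⟨i, hi, rfl⟩
  rw [hcomp]
  exact dp_diag

end

theorem dp_bij {G : Type} [Group G] (φ : G →* G) (h : Function.Bijective φ) : DP φ :=
  DP.retract (MulEquiv.ofBijective φ h).symm.toMonoidHom fun g =>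
    (MulEquiv.ofBijective φ h).symm_apply_apply g

/-- a conjugate of a product -/
theorem conj_prod {G : Type} [Group G] {n : ℕ} (y : G) (f : Fin n → G) :
    y * (List.ofFn f).prod * y⁻¹ = (List.ofFn fun i => y * f i * y⁻¹).prod := by
  have h := map_list_prod (MulAut.conj y).toMonoidHom (List.ofFn f)
  rw [List.map_ofFn] at h
  exact h

/-- from relations between conjugates to dependence -/
theorem dependent {G D : Type} [Group G] [Group D] {φ : G →* D} (hφ : DP φ) (n : ℕ)
    (a : φ.range) (g : Fin n → φ.range)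
    (h : ∃ c : Fin n → D, (a : D) = (List.ofFn fun i => c i * (g i : D) * (c i)⁻¹).prod) :
    ∃ c : Fin n → φ.range, a = (List.ofFn fun i => c i * g i * (c i)⁻¹).prod := by
  obtain ⟨c, hc⟩ := h
  obtain ⟨a', ha'⟩ := a.2
  choose g' hg' using fun i => (g i).2
  obtain ⟨x, hx⟩ := hφ (n + 1) (Fin.cons a'⁻¹ g') ⟨Fin.cons 1 c, by
    rw [List.ofFn_succ]
    simp only [Fin.cons_zero, Fin.cons_succ, one_mul, inv_one, mul_one, map_inv, ha', hg',
      List.prod_cons]
    rw [hc, inv_mul_cancel]⟩
  rw [List.ofFn_succ] at hx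
  simp only [Fin.cons_zero, Fin.cons_succ, List.prod_cons] at hx
  have h1 : a' = (x 0)⁻¹ * (List.ofFn fun i => x i.succ * g' i * (x i.succ)⁻¹).prod *
      (x 0)⁻¹⁻¹ := by
    have h2 := eq_inv_of_mul_eq_one_right hx
    rw [h2]
    group
  rw [conj_prod] at h1
  refine ⟨fun i => ⟨φ ((x 0)⁻¹ * x i.succ), ⟨_, rfl⟩⟩, ?_⟩
  have h3 : a = φ.rangeRestrict a' := Subtype.ext ha'.symm
  have h4 : ∀ i, g i = φ.rangeRestrict (g' i) := fun i => Subtype.ext (hg' i).symm
  rw [h3, h1, map_list_prod, List.map_ofFn]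
  congr 2
  funext i
  rw [h4 i]
  show φ.rangeRestrict ((x 0)⁻¹ * (x i.succ * g' i * (x i.succ)⁻¹) * (x 0)⁻¹⁻¹) =
    φ.rangeRestrict ((x 0)⁻¹ * x i.succ) * φ.rangeRestrict (g' i) *
      (φ.rangeRestrict ((x 0)⁻¹ * x i.succ))⁻¹
  rw [← map_inv, ← map_mul, ← map_mul]
  congr 1
  group

end Pool.Agent.N273.KE
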