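import Pool.Agent.N273.KE.Core

/-!
# Systems of equations of the form `t v = A (t w)`: elimination
-/

set_option autoImplicit false

namespace Pool.Agent.N273.KE

/-- **Elimination.** As many equations `t (v e) = A e • t (w e)` as unknowns; the signs of the
operators give a nonsingular linear system, and the operators of sign `-1` have fixed points. -/
theorem gain {K Ω : Type} [Group K] [MulAction K Ω] (sgn : K →* ℤˣ)
    (hfix : ∀ A : K, sgn A = -1 → ∃ t : Ω, A • t = t) (n : ℕ) :
    ∀ (V E : Type) [Fintype V] [Fintype E] [DecidableEq V] [DecidableEq E],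
      Fintype.card V = n → Fintype.card E = n → ∀ (v w : E → V) (A : E → K),
      (∀ x : V → ℤ, (∀ e, x (v e) = (sgn (A e) : ℤ) * x (w e)) → ∀ u, x u = 0) →
      ∃ t : V → Ω, ∀ e, t (v e) = A e • t (w e) := by
  induction n with
  | zero =>
    intro V E _ _ _ _ hV hE v w A _
    have hV0 : IsEmpty V := Fintype.card_eq_zero_iff.1 hV
    exact ⟨fun u => (hV0.false u).elim, fun e => (hV0.false (v e)).elim⟩
  | succ n ih =>
    intro V E _ _ _ _ hV hE v w A hns
    by_cases h : ∃ e, v e ≠ w e
    · obtain ⟨e0, he0⟩ := h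
      have hV' : Fintype.card {u : V // u ≠ v e0} = n := by
        have := Set.card_ne_eq (v e0)
        rw [hV, Nat.add_sub_cancel] at this
        rw [← this]
        exact Fintype.card_congr (Equiv.refl _)
      have hE' : Fintype.card {e : E // e ≠ e0} = n := by
        have := Set.card_ne_eq e0
        rw [hE, Nat.add_sub_cancel] at this
        rw [← this]
        exact Fintype.card_congr (Equiv.refl _)
      let ρ : V → {u : V // u ≠ v e0} := fun u =>
        if hu : u = v e0 then ⟨w e0, Ne.symm he0⟩ else ⟨u, hu⟩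
      let B : V → K := fun u => if u = v e0 then A e0 else 1
      have hρ1 : ρ (v e0) = ⟨w e0, Ne.symm he0⟩ := dif_pos rfl
      have hρ2 : ∀ (u : V) (hu : u ≠ v e0), ρ u = ⟨u, hu⟩ := fun u hu => dif_neg hu
      have hB1 : B (v e0) = A e0 := if_pos rfl
      have hB2 : ∀ u : V, u ≠ v e0 → B u = 1 := fun u hu => if_neg hu
      obtain ⟨t, ht⟩ := ih {u : V // u ≠ v e0} {e : E // e ≠ e0} hV' hE'
        (fun e => ρ (v e)) (fun e => ρ (w e)) (fun e => (B (v e))⁻¹ * A e * B (w e)) (by
        intro x hx u
        have h1 := hns (fun u => (sgn (B u) : ℤ) * x (ρ u)) (by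
          intro e
          by_cases he : e = e0
          · rw [he, hB1, hρ1, hB2 _ (Ne.symm he0), hρ2 _ (Ne.symm he0), map_one, Units.val_one,
              one_mul]
          · have h2 := hx ⟨e, he⟩
            beta_reduce at h2 ⊢
            rw [h2, map_mul, map_mul, map_inv, Units.val_mul, Units.val_mul]
            have h3 : (sgn (B (v e)) : ℤ) * (((sgn (B (v e)))⁻¹ : ℤˣ) : ℤ) = 1 :=
              Units.mul_inv _
            calc (sgn (B (v e)) : ℤ) * ((((sgn (B (v e)))⁻¹ : ℤˣ) : ℤ) * (sgn (A e) : ℤ) *
                  (sgn (B (w e)) : ℤ) * x (ρ (w e)))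
                = ((sgn (B (v e)) : ℤ) * (((sgn (B (v e)))⁻¹ : ℤˣ) : ℤ)) * ((sgn (A e) : ℤ) *
                  ((sgn (B (w e)) : ℤ) * x (ρ (w e)))) := by ring
              _ = _ := by rw [h3, one_mul]) u.1
        beta_reduce at h1
        rw [hB2 _ u.2, hρ2 _ u.2, map_one, Units.val_one, one_mul] at h1
        exact h1)
      refine ⟨fun u => B u • t (ρ u), fun e => ?_⟩
      by_cases he : e = e0
      · beta_reduce
        rw [he, hB1, hρ1, hB2 _ (Ne.symm he0), hρ2 _ (Ne.symm he0), one_smul]
      · have h2 := ht ⟨e, he⟩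
        beta_reduce at h2 ⊢
        rw [h2, ← mul_smul, ← mul_smul]
        congr 1
        group
    · push Not at h
      have hsurj : Function.Surjective v := by
        intro u
        by_contra hu
        push Not at hu
        have h1 := hns (fun u' => if u' = u then 1 else 0) (by
          intro e
          rw [if_neg (hu e), ← h e, if_neg (hu e), mul_zero]) u
        rw [if_pos rfl] at h1
        exact one_ne_zero h1
      have hbij : Function.Bijective v :=
        (Fintype.bijective_iff_surjective_and_card v).2 ⟨hsurj, by rw [hV, hE]⟩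
      have hneg : ∀ e, sgn (A e) = -1 := by
        intro e
        rcases Int.units_eq_one_or (sgn (A e)) with h1 | h1
        · exfalso
          have h2 := hns (fun u' => if u' = v e then 1 else 0) (by
            intro e'
            rw [← h e']
            by_cases he : e' = e
            · rw [he, h1, Units.val_one, one_mul]
            · rw [if_neg fun hh => he (hbij.1 hh), mul_zero]) (v e)
          rw [if_pos rfl] at h2
          exact one_ne_zero h2
        · exact h1
      choose f hf using fun e => hfix (A e) (hneg e)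
      obtain ⟨g, hg1, hg2⟩ := Function.bijective_iff_has_inverse.1 hbij
      refine ⟨fun u => f (g u), fun e => ?_⟩
      beta_reduce
      rw [← h e, hg1, hf]

section

variable {G D : Type} [Group G] [Group D] (φ : G →* D)

/-- the operators `t ↦ c t^s d` -/
def Ops : Subgroup (Equiv.Perm D × ℤˣ) where
  carrier := {q | ∃ c d : G, ∀ t : D, q.1 t = φ c * t ^ (q.2 : ℤ) * φ d}
  one_mem' := ⟨1, 1, fun t => by simp⟩
  mul_mem' := by
    rintro ⟨π, s⟩ ⟨π', s'⟩ ⟨c, d, h⟩ ⟨c', d', h'⟩
    simp only [Set.mem_ofPred_eq, Prod.mk_mul_mk, Equiv.Perm.mul_apply] at h h' ⊢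
    rcases Int.units_eq_one_or s with rfl | rfl
    · refine ⟨c * c', d' * d, fun t => ?_⟩
      rw [h, h', one_mul, map_mul, map_mul]
      simp only [Units.val_one, zpow_one, mul_assoc]
    · refine ⟨c * d'⁻¹, c'⁻¹ * d, fun t => ?_⟩
      rw [h, h', map_mul, map_mul, map_inv, map_inv]
      simp only [Units.val_neg, Units.val_one, zpow_neg, zpow_one, mul_inv_rev, neg_mul, one_mul,
        mul_assoc]
  inv_mem' := by
    rintro ⟨π, s⟩ ⟨c, d, h⟩
    simp only [Set.mem_ofPred_eq, Prod.inv_mk] at h ⊢
    rcases Int.units_eq_one_or s with rfl | rfl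
    · refine ⟨c⁻¹, d⁻¹, fun t => ?_⟩
      rw [Equiv.Perm.inv_eq_iff_eq, h]
      simp [mul_assoc]
    · refine ⟨d, c, fun t => ?_⟩
      rw [Equiv.Perm.inv_eq_iff_eq, h]
      simp [mul_assoc]

/-- the sign -/
def osgn : Ops φ →* ℤˣ := (MonoidHom.snd _ _).comp (Ops φ).subtype

instance : MulAction (Ops φ) D where
  smul q t := q.1.1 t
  one_smul _ := rfl
  mul_smul _ _ _ := rfl

theorem ops_smul (q : Ops φ) (t : D) : q • t = q.1.1 t := rfl

/-- the operator `t ↦ c t^s d` -/
def op (c d : G) (s : ℤˣ) : Ops φ :=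
  ⟨⟨{ toFun := fun t => φ c * t ^ (s : ℤ) * φ d
      invFun := fun t => ((φ c)⁻¹ * t * (φ d)⁻¹) ^ (s : ℤ)
      left_inv := fun t => by
        have e : (φ c)⁻¹ * (φ c * t ^ (s : ℤ) * φ d) * (φ d)⁻¹ = t ^ (s : ℤ) := by group
        beta_reduce
        rw [e, ← zpow_mul, ← Units.val_mul, Int.units_mul_self, Units.val_one, zpow_one]
      right_inv := fun t => by
        beta_reduce
        rw [← zpow_mul, ← Units.val_mul, Int.units_mul_self, Units.val_one, zpow_one]
        group }, s⟩, c, d, fun _ => rfl⟩

theorem op_smul (c d : G) (s : ℤˣ) (t : D) : op φ c d s • t = φ c * t ^ (s : ℤ) * φ d := rfl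

theorem osgn_op (c d : G) (s : ℤˣ) : osgn φ (op φ c d s) = s := rfl

end

/-- the operators of sign `-1` have fixed points in the wreath product with the group of order
two -/
theorem fix_two {G : Type} [Group G] (A : Ops (diag (G := G) (X := ZMod 2)))
    (hA : osgn _ A = -1) : ∃ t : Wr G (ZMod 2), A • t = t := by
  obtain ⟨⟨π, s⟩, c, d, h⟩ := A
  have hs : s = -1 := hA
  subst hs
  refine ⟨⟨fun y => if y = 0 then c else d, Multiplicative.ofAdd 1⟩, ?_⟩
  rw [ops_smul]
  refine (h _).trans ?_
  simp only [Units.val_neg, Units.val_one, zpow_neg, zpow_one]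
  ext x
  · simp only [SemidirectProduct.mul_left, SemidirectProduct.inv_left, Pi.mul_apply, shift_apply,
      diag_left, SemidirectProduct.mul_right, diag_right, SemidirectProduct.inv_right,
      Pi.inv_apply, toAdd_inv, toAdd_ofAdd, one_mul, toAdd_one, add_zero]
    have h10 : (1 : ZMod 2) ≠ 0 := by decide
    have h11 : (-1 : ZMod 2) = 1 := by decide
    have h12 : (1 : ZMod 2) + 1 = 0 := by decide
    rw [h11]
    have hx : x = 0 ∨ x = 1 := by
      revert x
      decide
    rcases hx with rfl | rfl
    · rw [zero_add, if_neg h10, if_pos rfl, inv_mul_cancel_right]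
    · rw [h12, if_neg h10, if_pos rfl, mul_inv_cancel, one_mul]
  · show _ = Multiplicative.ofAdd (1 : ZMod 2)
    simp only [SemidirectProduct.mul_right, diag_right, SemidirectProduct.inv_right, one_mul,
      mul_one]
    rfl

end Pool.Agent.N273.KE
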