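import Pool.Agent.N273.KE.Comm

/-!
# Nonsingular systems of equations over nilpotent groups
-/

set_option autoImplicit false

namespace Pool.Agent.N273.KE

open Monoid

/-- the center as a commutative group -/
local instance cen (G : Type) [Group G] : CommGroup (Subgroup.center G) :=
  { (inferInstance : Group (Subgroup.center G)) with
    mul_comm := fun a b => Subtype.ext (Subgroup.mem_center_iff.1 b.2 a) }

section

variable {G : Type} [Group G] {n : ℕ}

/-- central modifications of the values of the unknowns -/
theorem val_central (t : Fin n → G) (ζ : Fin n → Subgroup.center G)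
    (x : Coprod G (FreeGroup (Fin n))) :
    val (MonoidHom.id G) (fun k => t k * (ζ k : G)) x =
      val (MonoidHom.id G) t x *
        ((∏ k, ζ k ^ (Multiplicative.toAdd (expo G k x)) : Subgroup.center G) : G) := by
  let c : Coprod G (FreeGroup (Fin n)) →* Subgroup.center G :=
    { toFun := fun x => ∏ k, ζ k ^ (Multiplicative.toAdd (expo G k x))
      map_one' := by simp
      map_mul' := fun x y => by
        simp only [map_mul, toAdd_mul, zpow_add, Finset.prod_mul_distrib] }
  let ψ : Coprod G (FreeGroup (Fin n)) →* G :=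
    { toFun := fun x => val (MonoidHom.id G) t x * (c x : G)
      map_one' := by simp
      map_mul' := fun x y => by
        have h1 := Subgroup.mem_center_iff.1 (c x).2 (val (MonoidHom.id G) t y)
        rw [map_mul, map_mul, Subgroup.coe_mul]
        calc val (MonoidHom.id G) t x * val (MonoidHom.id G) t y * ((c x : G) * (c y : G))
            = val (MonoidHom.id G) t x * (val (MonoidHom.id G) t y * (c x : G)) * (c y : G) := by
              simp only [mul_assoc]
          _ = _ := by
              rw [h1]
              simp only [mul_assoc] }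
  have hψ : ∀ x, ψ x = val (MonoidHom.id G) t x *
      ((∏ k, ζ k ^ (Multiplicative.toAdd (expo G k x)) : Subgroup.center G) : G) := fun _ => rfl
  have h : val (MonoidHom.id G) (fun k => t k * (ζ k : G)) = ψ := by
    refine Coprod.hom_ext ?_ ?_
    · refine MonoidHom.ext fun g => ?_
      rw [MonoidHom.comp_apply, MonoidHom.comp_apply, hψ, val_inl, val_inl]
      simp [expo_inl]
    · refine FreeGroup.ext_hom _ _ fun k => ?_
      have hT : (Coprod.inr (FreeGroup.of k) : Coprod G (FreeGroup (Fin n))) = T G k := rfl
      rw [MonoidHom.comp_apply, MonoidHom.comp_apply, hT, hψ, val_T, val_T,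
        Finset.prod_eq_single k]
      · rw [expo_T, if_pos rfl]
        simp
      · intro l _ hl
        rw [expo_T, if_neg (Ne.symm hl)]
        simp
      · intro hk
        exact absurd (Finset.mem_univ k) hk
  exact DFunLike.congr_fun h x

/-- the matrix of the exponent sums -/
def mat (w : Fin n → Coprod G (FreeGroup (Fin n))) : Matrix (Fin n) (Fin n) ℤ :=
  Matrix.of fun i j => Multiplicative.toAdd (expo G i (w j))

theorem prod_zp {Z ι : Type} [CommGroup Z] (s : Finset ι) (y : Z) (f : ι → ℤ) :
    ∏ k ∈ s, y ^ f k = y ^ ∑ k ∈ s, f k := by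
  classical
  induction s using Finset.induction_on with
  | empty => simp
  | insert a s ha ih => rw [Finset.prod_insert ha, Finset.sum_insert ha, ih, zpow_add]

theorem lin_solve {Z : Type} [CommGroup Z] (M : Matrix (Fin n) (Fin n) ℤ)
    (y : Fin n → Z) (j : Fin n) :
    ∏ k, (∏ l, y l ^ (M.adjugate l k)) ^ (M k j) = y j ^ M.det := by
  have h1 : ∀ l, ∑ k, M.adjugate l k * M k j = if l = j then M.det else 0 := by
    intro l
    have h2 := congrFun (congrFun (Matrix.adjugate_mul M) l) j
    rw [Matrix.mul_apply, Matrix.smul_apply, Matrix.one_apply] at h2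
    rw [h2]
    simp
  calc ∏ k, (∏ l, y l ^ (M.adjugate l k)) ^ (M k j)
      = ∏ k, ∏ l, y l ^ (M.adjugate l k * M k j) := by
        refine Finset.prod_congr rfl fun k _ => ?_
        rw [← Finset.prod_zpow]
        exact Finset.prod_congr rfl fun l _ => (zpow_mul _ _ _).symm
    _ = ∏ l, ∏ k, y l ^ (M.adjugate l k * M k j) := Finset.prod_comm
    _ = ∏ l, y l ^ (∑ k, M.adjugate l k * M k j) := by
        refine Finset.prod_congr rfl fun l _ => ?_
        exact prod_zp _ _ _
    _ = y j ^ M.det := by
        rw [Finset.prod_eq_single j]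
        · rw [h1, if_pos rfl]
        · intro l _ hl
          rw [h1, if_neg hl, zpow_zero]
        · intro hj
          exact absurd (Finset.mem_univ j) hj

end

theorem mat_map {G H : Type} [Group G] [Group H] {n : ℕ} (π : G →* H)
    (w : Fin n → Coprod G (FreeGroup (Fin n))) :
    mat (fun j => Coprod.map π (MonoidHom.id _) (w j)) = mat w := by
  ext i j
  have h : (expo H i).comp (Coprod.map π (MonoidHom.id (FreeGroup (Fin n)))) = expo G i := by
    refine Coprod.hom_ext ?_ ?_
    · refine MonoidHom.ext fun a => ?_
      simp only [MonoidHom.comp_apply, Coprod.map_apply_inl, expo_inl]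
    · refine FreeGroup.ext_hom _ _ fun k => ?_
      simp only [MonoidHom.comp_apply, Coprod.map_apply_inr, MonoidHom.id_apply]
      exact (expo_T (G := H) i k).trans (expo_T (G := G) i k).symm
  have h1 := DFunLike.congr_fun h (w j)
  exact congrArg Multiplicative.toAdd h1

/-- **Nilpotent groups.** A system whose determinant `Δ` is such that `x ↦ x ^ Δ` is bijective on
the nilpotent group `G` has a solution in `G`. -/
theorem nilp_solve (G : Type) [Group G] [Group.IsNilpotent G] : ∀ (n : ℕ)
    (w : Fin n → Coprod G (FreeGroup (Fin n))),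
    Function.Bijective (fun x : G => x ^ (mat w).det) →
    ∃ t : Fin n → G, ∀ j, val (MonoidHom.id G) t (w j) = 1 := by
  refine Group.nilpotent_center_quotient_ind (P := fun G _ _ => ∀ (n : ℕ)
    (w : Fin n → Coprod G (FreeGroup (Fin n))),
    Function.Bijective (fun x : G => x ^ (mat w).det) →
    ∃ t : Fin n → G, ∀ j, val (MonoidHom.id G) t (w j) = 1) G ?_ ?_
  · intro G _ _ n w _
    exact ⟨fun _ => 1, fun j => Subsingleton.elim _ _⟩
  · intro G _ _ ih n w hbij
    obtain ⟨Δ, hΔ⟩ : ∃ Δ, Δ = (mat w).det := ⟨_, rfl⟩
    rw [← hΔ] at hbij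
    let π := QuotientGroup.mk' (Subgroup.center G)
    have hcen : ∀ u : G, u ^ Δ ∈ Subgroup.center G → u ∈ Subgroup.center G := by
      intro u hu
      rw [Subgroup.mem_center_iff] at hu ⊢
      intro g
      have h1 : (g * u * g⁻¹) ^ Δ = u ^ Δ := by
        rw [conj_zpow, hu g, mul_inv_cancel_right]
      have h2 : g * u * g⁻¹ = u := hbij.1 h1
      exact mul_inv_eq_iff_eq_mul.1 h2
    have hbij' : Function.Bijective (fun x : G ⧸ Subgroup.center G => x ^ Δ) := by
      constructor
      · intro x y hxy
        obtain ⟨x, rfl⟩ := QuotientGroup.mk'_surjective (Subgroup.center G) x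
        obtain ⟨y, rfl⟩ := QuotientGroup.mk'_surjective (Subgroup.center G) y
        have h1 : π (y ^ Δ) = π (x ^ Δ) := by
          rw [map_zpow, map_zpow]
          exact hxy.symm
        have h2 : (y ^ Δ)⁻¹ * x ^ Δ ∈ Subgroup.center G := QuotientGroup.eq.1 h1
        obtain ⟨u, hu⟩ := hbij.2 ((y ^ Δ)⁻¹ * x ^ Δ)
        have hu' : u ^ Δ = (y ^ Δ)⁻¹ * x ^ Δ := hu
        have hc : u ∈ Subgroup.center G := hcen u (by rw [hu']; exact h2)
        have h3 : x ^ Δ = (y * u) ^ Δ := by
          have hcomm : Commute y u := (Subgroup.mem_center_iff.1 hc y)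
          rw [hcomm.mul_zpow, hu', mul_inv_cancel_left]
        have h4 : x = y * u := hbij.1 h3
        refine (QuotientGroup.eq.2 ?_).symm
        rw [h4, inv_mul_cancel_left]
        exact hc
      · intro x
        obtain ⟨x, rfl⟩ := QuotientGroup.mk'_surjective (Subgroup.center G) x
        obtain ⟨y, hy⟩ := hbij.2 x
        exact ⟨π y, by
          have hy' : y ^ Δ = x := hy
          show (π y) ^ Δ = π x
          rw [← map_zpow, hy']⟩
    obtain ⟨t', ht'⟩ := ih n (fun j => Coprod.map π (MonoidHom.id _) (w j)) (by
      rw [mat_map, ← hΔ]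
      exact hbij')
    choose t ht using fun k => QuotientGroup.mk'_surjective (Subgroup.center G) (t' k)
    have hz : ∀ j, val (MonoidHom.id G) t (w j) ∈ Subgroup.center G := by
      intro j
      have h1 : (val (MonoidHom.id (G ⧸ Subgroup.center G)) t').comp
          (Coprod.map π (MonoidHom.id (FreeGroup (Fin n)))) =
          π.comp (val (MonoidHom.id G) t) := by
        refine Coprod.hom_ext ?_ ?_
        · refine MonoidHom.ext fun g => ?_
          simp only [MonoidHom.comp_apply, Coprod.map_apply_inl, val_inl, MonoidHom.id_apply]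
        · refine FreeGroup.ext_hom _ _ fun k => ?_
          simp only [MonoidHom.comp_apply, Coprod.map_apply_inr, MonoidHom.id_apply]
          refine (val_T _ _ k).trans ?_
          rw [← ht k]
          exact congrArg π (val_T (MonoidHom.id G) t k).symm
      have h2 := DFunLike.congr_fun h1 (w j)
      rw [MonoidHom.comp_apply, ht' j] at h2
      exact (QuotientGroup.eq_one_iff _).1 h2.symm
    choose y hy using fun j => hbij.2 (val (MonoidHom.id G) t (w j))⁻¹
    have hy' : ∀ j, y j ^ Δ = (val (MonoidHom.id G) t (w j))⁻¹ := hy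
    have hyc : ∀ j, y j ∈ Subgroup.center G := fun j => hcen _ (by
      rw [hy']
      exact (Subgroup.center G).inv_mem (hz j))
    let Y : Fin n → Subgroup.center G := fun j => ⟨y j, hyc j⟩
    refine ⟨fun k => t k * ((∏ l, Y l ^ ((mat w).adjugate l k) : Subgroup.center G) : G),
      fun j => ?_⟩
    rw [val_central t (fun k => ∏ l, Y l ^ ((mat w).adjugate l k))]
    have h1 := lin_solve (mat w) Y j
    have h2 : (∏ k, (∏ l, Y l ^ ((mat w).adjugate l k)) ^
        (Multiplicative.toAdd (expo G k (w j))) : Subgroup.center G) = Y j ^ Δ := by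
      rw [hΔ]
      exact h1
    rw [h2, Subgroup.coe_zpow]
    show _ * y j ^ Δ = 1
    rw [hy', mul_inv_cancel]

end Pool.Agent.N273.KE
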