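import Pool.Agent.N273.KE.Gain

/-!
# Systems of equations over groups: positive triangular systems and systems of weight two
-/

set_option autoImplicit false

namespace Pool.Agent.N273.KE

open Monoid

section

variable {G : Type} [Group G] {n : ℕ}

/-- the unknown -/
def T (G : Type) [Group G] {n : ℕ} (i : Fin n) : Coprod G (FreeGroup (Fin n)) :=
  Coprod.inr (FreeGroup.of i)

/-- the exponent sum -/
def expo (G : Type) [Group G] {n : ℕ} (i : Fin n) :
    Coprod G (FreeGroup (Fin n)) →* Multiplicative ℤ :=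
  Coprod.lift (1 : G →* Multiplicative ℤ)
    (FreeGroup.lift (fun k : Fin n => if k = i then Multiplicative.ofAdd (1 : ℤ) else 1))

theorem expo_inl (i : Fin n) (g : G) : expo G i (Coprod.inl g) = 1 := by
  unfold expo
  rw [Coprod.lift_apply_inl]
  rfl

theorem expo_T (i k : Fin n) :
    expo G i (T G k) = if k = i then Multiplicative.ofAdd (1 : ℤ) else 1 := by
  unfold expo T
  rw [Coprod.lift_apply_inr, FreeGroup.lift_apply_of]

/-- the evaluation -/
def val {D : Type} [Group D] (φ : G →* D) (t : Fin n → D) :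
    Coprod G (FreeGroup (Fin n)) →* D := Coprod.lift φ (FreeGroup.lift t)

theorem val_inl {D : Type} [Group D] (φ : G →* D) (t : Fin n → D) (g : G) :
    val φ t (Coprod.inl g) = φ g := Coprod.lift_apply_inl _ _ _

theorem val_T {D : Type} [Group D] (φ : G →* D) (t : Fin n → D) (i : Fin n) :
    val φ t (T G i) = t i := by
  unfold val T
  rw [Coprod.lift_apply_inr, FreeGroup.lift_apply_of]

/-- a solution in a group over `G` in which no new dependences arise -/
theorem concl {D : Type} [Group D] (w : Fin n → Coprod G (FreeGroup (Fin n))) (φ : G →* D)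
    (hφ : DP φ) (t : Fin n → D) (hw : ∀ j, val φ t (w j) = 1) :
    DP ((QuotientGroup.mk' (Subgroup.normalClosure (Set.range w))).comp
      (Coprod.inl : G →* Coprod G (FreeGroup (Fin n)))) := by
  have hN : ∀ x ∈ Subgroup.normalClosure (Set.range w), val φ t x = 1 := by
    have h1 : Subgroup.normalClosure (Set.range w) ≤ (val φ t).ker := by
      refine Subgroup.normalClosure_le_normal ?_
      rintro _ ⟨j, rfl⟩
      exact hw j
    exact fun x hx => h1 hx
  refine DP.of_comp (ψ := QuotientGroup.lift _ (val φ t) hN) ?_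
  have e : (QuotientGroup.lift _ (val φ t) hN).comp
      ((QuotientGroup.mk' (Subgroup.normalClosure (Set.range w))).comp
        (Coprod.inl : G →* Coprod G (FreeGroup (Fin n)))) = φ := by
    ext g
    exact val_inl φ t g
  rw [e]
  exact hφ

/-! ### positive triangular systems -/

/-- the subgroup generated by `G` and the unknowns with smaller indices -/
def low (G : Type) [Group G] {n : ℕ} (k : Fin n) : Subgroup (Coprod G (FreeGroup (Fin n))) :=
  Subgroup.closure (Set.range (Coprod.inl : G →* Coprod G (FreeGroup (Fin n))) ∪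
    {x | ∃ i : Fin n, i < k ∧ x = Coprod.inr (FreeGroup.of i)})

theorem low_mono {i k : Fin n} (h : i ≤ k) : low G i ≤ low G k := by
  refine Subgroup.closure_mono (Set.union_subset_union_right _ ?_)
  rintro x ⟨l, hl, rfl⟩
  exact ⟨l, lt_of_lt_of_le hl h, rfl⟩

theorem T_mem {i k : Fin n} (h : i < k) : T G i ∈ low G k :=
  Subgroup.subset_closure (Or.inr ⟨i, h, rfl⟩)

/-- a positive word in the unknown `k`, with coefficients which do not contain the unknowns with
index at least `k` -/
def Pos (G : Type) [Group G] {n : ℕ} (k : Fin n) : Submonoid (Coprod G (FreeGroup (Fin n))) :=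
  Submonoid.closure ({Coprod.inr (FreeGroup.of k)} ∪
    (low G k : Set (Coprod G (FreeGroup (Fin n)))))

theorem expo_low {i k : Fin n} (h : k ≤ i) {x : Coprod G (FreeGroup (Fin n))}
    (hx : x ∈ low G k) : expo G i x = 1 := by
  have h1 : low G k ≤ (expo G i).ker := by
    refine (Subgroup.closure_le _).2 ?_
    rintro _ (⟨g, rfl⟩ | ⟨l, hl, rfl⟩)
    · exact expo_inl i g
    · refine (expo_T i l).trans (if_neg ?_)
      rintro rfl
      exact absurd hl (not_lt.2 h)
  exact h1 hx

theorem pos_le {i k : Fin n} (h : i < k) {x : Coprod G (FreeGroup (Fin n))} (hx : x ∈ Pos G i) :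
    x ∈ low G k := by
  have h1 : Pos G i ≤ (low G k).toSubmonoid := by
    refine Submonoid.closure_le.2 ?_
    rintro y (hy | hy)
    · rw [Set.mem_singleton_iff.1 hy]
      exact T_mem h
    · exact low_mono h.le hy
  exact h1 hx

theorem expo_pos {i k : Fin n} (h : k < i) {x : Coprod G (FreeGroup (Fin n))}
    (hx : x ∈ Pos G k) : expo G i x = 1 := expo_low le_rfl (pos_le h hx)

theorem absorb (L : Subgroup (Coprod G (FreeGroup (Fin n)))) (t : Coprod G (FreeGroup (Fin n)))
    (cs : List (Coprod G (FreeGroup (Fin n)))) : (∀ c ∈ cs, c ∈ L) → ∀ c ∈ L, ∀ c' ∈ L,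
    ∃ c'' ∈ L, ∃ cs' : List (Coprod G (FreeGroup (Fin n))), (∀ c ∈ cs', c ∈ L) ∧
      c * (cs.map fun a => t * a).prod * c' = c'' * (cs'.map fun a => t * a).prod := by
  induction cs with
  | nil =>
    intro _ c hc c' hc'
    exact ⟨c * c', L.mul_mem hc hc', [], by simp, by simp⟩
  | cons e cs ih =>
    intro hcs c hc c' hc'
    obtain ⟨e', he', cs', hcs', h⟩ := ih (fun x hx => hcs x (List.mem_cons_of_mem _ hx)) e
      (hcs e List.mem_cons_self) c' hc'
    refine ⟨c, hc, e' :: cs', ?_, ?_⟩
    · intro x hx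
      rcases List.mem_cons.1 hx with rfl | hx
      · exact he'
      · exact hcs' x hx
    · rw [List.map_cons, List.prod_cons, List.map_cons, List.prod_cons, mul_assoc t e',
        ← h]
      simp only [mul_assoc]

theorem pos_form {k : Fin n} {x : Coprod G (FreeGroup (Fin n))} (hx : x ∈ Pos G k) :
    ∃ c ∈ low G k, ∃ cs : List (Coprod G (FreeGroup (Fin n))), (∀ c ∈ cs, c ∈ low G k) ∧
      x = c * (cs.map fun a => T G k * a).prod := by
  unfold Pos at hx
  induction hx using Submonoid.closure_induction with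
  | mem y hy =>
    rcases hy with hy | hy
    · refine ⟨1, one_mem _, [1], by simp, ?_⟩
      rw [Set.mem_singleton_iff.1 hy]
      simp [T]
    · exact ⟨y, hy, [], by simp, by simp⟩
  | one => exact ⟨1, one_mem _, [], by simp, by simp⟩
  | mul y z _ _ hy hz =>
    obtain ⟨c, hc, cs, hcs, rfl⟩ := hy
    obtain ⟨c', hc', cs', hcs', rfl⟩ := hz
    obtain ⟨c'', hc'', ds, hds, h⟩ := absorb (low G k) (T G k) cs hcs c hc c' hc'
    refine ⟨c'', hc'', ds ++ cs', ?_, ?_⟩
    · intro x hx
      rcases List.mem_append.1 hx with hx | hx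
      · exact hds x hx
      · exact hcs' x hx
    · rw [List.map_append, List.prod_append, ← mul_assoc c'', ← h]
      simp only [mul_assoc]

/-- one more positive equation -/
theorem pos_step {D : Type} [Group D] (φ : G →* D) (t : Fin n → D) (k : Fin n)
    {x : Coprod G (FreeGroup (Fin n))} (hx : x ∈ Pos G k) (hk : expo G k x ≠ 1) :
    ∃ (D' : Type) (_ : Group D') (ψ : D →* D') (t' : Fin n → D'), DP ψ ∧
      (∀ y ∈ low G k, val (ψ.comp φ) t' y = ψ (val φ t y)) ∧ val (ψ.comp φ) t' x = 1 := by
  classical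
  obtain ⟨c, hc, cs, hcs, rfl⟩ := pos_form hx
  have hne : cs ≠ [] := by
    rintro rfl
    apply hk
    rw [List.map_nil, List.prod_nil, mul_one]
    exact expo_low le_rfl hc
  -- the last coefficient
  obtain ⟨cs₀, e, rfl⟩ : ∃ cs₀ e, cs = cs₀ ++ [e] := by
    rcases List.eq_nil_or_concat cs with h | ⟨l, a, h⟩
    · exact absurd h hne
    · exact ⟨l, a, by simpa using h⟩
  obtain ⟨l, hl⟩ : ∃ l : List D, l = cs₀.map (val φ t) ++ [val φ t e * val φ t c] := ⟨_, rfl⟩
  have hlen : l.length = cs₀.length + 1 := by rw [hl]; simp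
  obtain ⟨s, hs⟩ := levin (cs₀.length + 1) l hlen
  have hlow : ∀ y ∈ low G k, val ((diag (X := ZMod (cs₀.length + 1))).comp φ)
      (fun i => if i = k then s else diag (t i)) y = diag (val φ t y) := by
    intro y hy
    unfold low at hy
    induction hy using Subgroup.closure_induction with
    | mem z hz =>
      rcases hz with ⟨g, rfl⟩ | ⟨i, hi, rfl⟩
      · rw [val_inl, val_inl]
        rfl
      · refine (val_T _ _ i).trans ?_
        rw [if_neg hi.ne]
        congr 1
        exact (val_T φ t i).symm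
    | one => rw [map_one, map_one, map_one]
    | mul a b _ _ ha hb => rw [map_mul, map_mul, map_mul, ha, hb]
    | inv a _ ha => rw [map_inv, map_inv, map_inv, ha]
  refine ⟨Wr D (ZMod (cs₀.length + 1)), inferInstance, diag,
    fun i => if i = k then s else diag (t i), dp_diag, hlow, ?_⟩
  have hprod : ∀ ds : List (Coprod G (FreeGroup (Fin n))), (∀ d ∈ ds, d ∈ low G k) →
      val ((diag (X := ZMod (cs₀.length + 1))).comp φ)
        (fun i => if i = k then s else diag (t i)) (ds.map fun a => T G k * a).prod =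
      ((ds.map (val φ t)).map fun a => s * diag a).prod := by
    intro ds
    induction ds with
    | nil =>
      intro _
      simp
    | cons d ds ih =>
      intro hds
      rw [List.map_cons, List.prod_cons, map_mul, map_mul, val_T, if_pos rfl,
        hlow d (hds d List.mem_cons_self), ih fun x hx => hds x (List.mem_cons_of_mem _ hx),
        List.map_cons, List.map_cons, List.prod_cons]
  have he : e ∈ low G k := hcs e (by simp)
  rw [hl, List.map_append, List.prod_append] at hs
  simp only [List.map_cons, List.map_nil, List.prod_cons, List.prod_nil, mul_one, map_mul] at hs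
  rw [List.map_append, List.prod_append, map_mul, map_mul, hlow c hc,
    hprod cs₀ fun x hx => hcs x (List.mem_append_left _ hx)]
  simp only [List.map_cons, List.map_nil, List.prod_cons, List.prod_nil, mul_one, map_mul]
  rw [val_T, if_pos rfl, hlow e he]
  -- conjugation
  have h1 : ((cs₀.map (val φ t)).map fun a => s * diag a).prod * (s * diag (val φ t e)) =
      (diag (val φ t c))⁻¹ := by
    rw [eq_inv_iff_mul_eq_one, ← hs]
    simp only [mul_assoc]
  rw [h1, mul_inv_cancel]

/-- the equations of a positive triangular system -/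
def PosTri (w : Fin n → Coprod G (FreeGroup (Fin n))) : Prop :=
  ∀ j, w j ∈ Pos G j ∨ (w j)⁻¹ ∈ Pos G j

theorem pos_solve (w : Fin n → Coprod G (FreeGroup (Fin n))) (hw : PosTri w)
    (hexp : ∀ j, expo G j (w j) ≠ 1) :
    ∃ (D : Type) (_ : Group D) (φ : G →* D) (t : Fin n → D), DP φ ∧
      ∀ j, val φ t (w j) = 1 := by
  have key : ∀ k : ℕ, k ≤ n → ∃ (D : Type) (_ : Group D) (φ : G →* D) (t : Fin n → D), DP φ ∧
      ∀ j : Fin n, j.val < k → val φ t (w j) = 1 := by
    intro k
    induction k with
    | zero =>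
      intro _
      exact ⟨G, inferInstance, MonoidHom.id G, fun _ => 1, DP.id, fun j hj => by omega⟩
    | succ k ih =>
      intro hk
      obtain ⟨D, iD, φ, t, hφ, ht⟩ := ih (by omega)
      obtain ⟨x, hx, hex, hxw⟩ : ∃ x ∈ Pos G (⟨k, hk⟩ : Fin n), expo G ⟨k, hk⟩ x ≠ 1 ∧
          (w ⟨k, hk⟩ = x ∨ w ⟨k, hk⟩ = x⁻¹) := by
        rcases hw ⟨k, hk⟩ with h | h
        · exact ⟨_, h, hexp _, Or.inl rfl⟩
        · refine ⟨_, h, ?_, Or.inr (inv_inv _).symm⟩
          rw [map_inv, ne_eq, inv_eq_one]
          exact hexp _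
      obtain ⟨D', iD', ψ, t', hψ, h1, h2⟩ := pos_step φ t ⟨k, hk⟩ hx hex
      refine ⟨D', iD', ψ.comp φ, t', hφ.comp hψ, fun j hj => ?_⟩
      by_cases hjk : j.val < k
      · have hlow : w j ∈ low G (⟨k, hk⟩ : Fin n) := by
          have hlt : j < (⟨k, hk⟩ : Fin n) := hjk
          rcases hw j with h | h
          · exact pos_le hlt h
          · have := (low G (⟨k, hk⟩ : Fin n)).inv_mem (pos_le hlt h)
            rwa [inv_inv] at this
        rw [h1 _ hlow, ht j hjk, map_one]
      · have hj' : j = ⟨k, hk⟩ := Fin.ext (by simp; omega)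
        rw [hj']
        rcases hxw with h | h
        · rw [h, h2]
        · rw [h, map_inv, h2, inv_one]
  obtain ⟨D, iD, φ, t, hφ, ht⟩ := key n le_rfl
  exact ⟨D, iD, φ, t, hφ, fun j => ht j j.2⟩

/-! ### systems of weight two -/

theorem two_solve (p q : Fin n → Fin n) (ε δ : Fin n → ℤˣ) (a b : Fin n → G)
    (hns : ∀ x : Fin n → ℤ, (∀ j, (ε j : ℤ) * x (p j) + (δ j : ℤ) * x (q j) = 0) → x = 0) :
    ∃ t : Fin n → Wr G (ZMod 2), ∀ j,
      t (p j) ^ (ε j : ℤ) * diag (a j) * t (q j) ^ (δ j : ℤ) * diag (b j) = 1 := by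
  classical
  obtain ⟨t, ht⟩ := gain (osgn (diag (G := G) (X := ZMod 2))) fix_two n (Fin n) (Fin n)
    (Fintype.card_fin n) (Fintype.card_fin n) p q
    (fun j => op diag 1 1 (ε j) * op diag (b j)⁻¹ (a j)⁻¹ (-(δ j))) (by
      intro x hx
      have h1 := hns x (by
        intro j
        rw [hx j, map_mul, osgn_op, osgn_op, Units.val_mul, Units.val_neg]
        have h2 : (ε j : ℤ) * (ε j : ℤ) = 1 := by
          rw [← Units.val_mul, Int.units_mul_self, Units.val_one]
        linear_combination (-(δ j : ℤ) * x (q j)) * h2)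
      exact fun u => congrFun h1 u)
  refine ⟨t, fun j => ?_⟩
  rw [ht j, mul_smul, op_smul, op_smul]
  simp only [map_one, one_mul, mul_one, map_inv, Units.val_neg, zpow_neg]
  rw [← zpow_mul, ← Units.val_mul, Int.units_mul_self, Units.val_one, zpow_one]
  group

end

end Pool.Agent.N273.KE
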